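import Pool.Agent.H18.HX.Targets

/-!
# Row LFT: the self-map of the hypersurface
-/

set_option autoImplicit false

open MvPolynomial
open Pool.Agent.H12.ZD (pmap v O Res DenseOrbit NoInv)
open Pool.Agent.H18.HIT Pool.Agent.H18.HX

namespace Pool.Agent.H96.HX

/-- values of a homogeneous polynomial at a scaled point -/
theorem lft_scale {n r : ℕ} {k A : Type} [Field k] [CommRing A] [Algebra k A]
    {P : MvPolynomial (Fin n) k} (hP : P.IsHomogeneous r) (c : A) (v : Fin n → A) :
    aeval (fun i => c * v i) P = c ^ r * aeval v P := by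
  rw [aeval_def, aeval_def, eval₂_eq', eval₂_eq', Finset.mul_sum]
  refine Finset.sum_congr rfl fun m hm => ?_
  have h1 : ∑ i, m i = r := by
    have h2 : m.degree = r := by
      by_contra hne
      exact (mem_support_iff.1 hm) (hP.coeff_eq_zero hne)
    rw [← h2, Finsupp.degree_eq_sum]
  simp only [mul_pow]
  rw [Finset.prod_mul_distrib, Finset.prod_pow_eq_pow_sum, h1]
  ring

/-- **LFT.** -/
theorem pf_LFT : T_LFT := by
  intro L N r δ d k _ I _ l P Δ g hP hI hg hgI
  have h1 : ∀ i, (aeval g (l i)).IsHomogeneous d := by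
    intro i
    have h2 := (hP.lin i).aeval g hg
    rwa [mul_one] at h2
  choose F hF1 hF2 using fun i => hP.den d (aeval g (l i)) (h1 i)
  refine ⟨F, hF1, hF2, ?_⟩
  rw [← hP.ker]
  set π : Po L k →ₐ[k] Po L k ⧸ I := Ideal.Quotient.mkₐ k I with hπ
  have hπI : ∀ x : Po L k, π x = 0 ↔ x ∈ I := by
    intro x
    rw [hπ, Ideal.Quotient.mkₐ_eq_mk]
    exact Ideal.Quotient.eq_zero_iff_mem
  have h3 : ∀ i, π (aeval l (F i)) =
      π (aeval (fun j : Fin N => l j.succ) Δ) * π (aeval g (l i)) := by
    intro i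
    have h4 := (hπI _).2 (hF2 i)
    rw [map_sub, map_mul, sub_eq_zero] at h4
    exact h4.symm
  have h5 : aeval l P ∈ I := (hP.ker P).2 dvd_rfl
  have h6 : aeval g (aeval l P) ∈ I := hgI _ h5
  have h7 : aeval (fun i => π (aeval g (l i))) P = 0 := by
    have h8 := (hπI _).2 h6
    rw [comp_aeval_apply l (aeval g), comp_aeval_apply _ π] at h8
    exact h8
  rw [← hπI, comp_aeval_apply F (aeval l), comp_aeval_apply _ π]
  have h9 : (fun i => π (aeval l (F i))) =
      fun i => π (aeval (fun j : Fin N => l j.succ) Δ) * π (aeval g (l i)) := funext h3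
  rw [h9, lft_scale hP.hyp.hom, h7, mul_zero]

end Pool.Agent.H96.HX
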